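import Mathlib
import Pool.Agent.Helper25.HN.Ball

/-!
# ET, block A: the logarithm on the units of `ℤ_[p]` (p odd), normalised by the base `1 + p`
-/

set_option autoImplicit false

namespace Pool.Agent.Helper25.ET

open Filter Topology Pool.Agent.Helper25.HN

variable {p : ℕ} [hp : Fact p.Prime]

theorem norm_p_lt : ‖(p : ℤ_[p])‖ < 1 := Padic.norm_p_lt_one

theorem norm_p_pos : 0 < ‖(p : ℤ_[p])‖ := norm_pos_iff.2 (by exact_mod_cast hp.out.ne_zero)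

theorem dvd_iff {a w : ℤ_[p]} (ha : a ≠ 0) : a ∣ w ↔ ‖w‖ ≤ ‖a‖ := by
  constructor
  · rintro ⟨t, rfl⟩
    rw [norm_mul]
    exact mul_le_of_le_one_right (norm_nonneg _) (PadicInt.norm_le_one _)
  · intro h
    obtain ⟨t, ht⟩ := dvd_of_norm_le ha h
    exact ⟨t, ht⟩

theorem p_ne : (p : ℤ_[p]) ≠ 0 := by exact_mod_cast hp.out.ne_zero

/-- `s ↦ (1 + p) ^ s`. -/
noncomputable def ex (p : ℕ) [Fact p.Prime] : AddChar ℤ_[p] ℤ_[p] :=
  PadicInt.addChar_of_value_at_one (p : ℤ_[p]) (tendsto_pow_atTop_nhds_zero_iff_norm_lt_one.2 norm_p_lt)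

theorem ex_cont : Continuous (ex p : ℤ_[p] → ℤ_[p]) :=
  PadicInt.continuous_addChar_of_value_at_one _

theorem ex_one : ex p 1 = 1 + p := PadicInt.addChar_of_value_at_one_def _

theorem ex_zero : ex p 0 = 1 := AddChar.map_zero_eq_one _

theorem ex_add (s t : ℤ_[p]) : ex p (s + t) = ex p s * ex p t := AddChar.map_add_eq_mul _ s t

theorem ex_nat (k : ℕ) : ex p (k : ℤ_[p]) = (1 + p) ^ k := by
  induction k with
  | zero => simp
  | succ k ih => rw [Nat.cast_succ, ex_add, ih, ex_one, pow_succ]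

theorem norm_pow_sub_pow (hp2 : p ≠ 2) {x y : ℤ} (hxy : (p : ℤ) ∣ x - y) (hx : ¬ (p : ℤ) ∣ x) (n : ℕ) :
    ‖((x : ℤ_[p]) ^ n - (y : ℤ_[p]) ^ n)‖ = ‖(x : ℤ_[p]) - y‖ * ‖(n : ℤ_[p])‖ := by
  have hodd : Odd p := hp.out.odd_of_ne_two hp2
  have h1 := Int.emultiplicity_pow_sub_pow hp.out hodd hxy hx n
  have h2 : ∀ k : ℕ, (p : ℤ) ^ k ∣ x ^ n - y ^ n ↔ (p : ℤ) ^ k ∣ (x - y) * n := by
    intro k
    rw [pow_dvd_iff_le_emultiplicity, pow_dvd_iff_le_emultiplicity, h1,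
      emultiplicity_mul (Nat.prime_iff_prime_int.1 hp.out), Int.natCast_emultiplicity]
  have h3 : ∀ z w : ℤ, (∀ k : ℕ, (p : ℤ) ^ k ∣ z ↔ (p : ℤ) ^ k ∣ w) → ‖(z : ℤ_[p])‖ ≤ ‖(w : ℤ_[p])‖ := by
    intro z w hzw
    by_cases hw : (w : ℤ_[p]) = 0
    · have hw0 : w = 0 := by exact_mod_cast hw
      have hz0 : (z : ℤ_[p]) = 0 := by
        rw [← norm_le_zero_iff]
        refine ge_of_tendsto (tendsto_pow_atTop_nhds_zero_of_lt_one (norm_nonneg _) (norm_p_lt (p := p)))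
          (Eventually.of_forall fun k => ?_)
        have h4 : (p : ℤ) ^ k ∣ z := (hzw k).2 (by rw [hw0]; exact dvd_zero _)
        obtain ⟨t, rfl⟩ := h4
        push_cast
        rw [norm_mul, norm_pow]
        exact mul_le_of_le_one_right (by positivity) (PadicInt.norm_le_one _)
      rw [hz0, hw]
    · rw [PadicInt.norm_eq_zpow_neg_valuation hw, PadicInt.norm_int_le_pow_iff_dvd, hzw,
        ← PadicInt.norm_int_le_pow_iff_dvd, ← PadicInt.norm_eq_zpow_neg_valuation hw]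
  have h4 : ‖((x ^ n - y ^ n : ℤ) : ℤ_[p])‖ = ‖(((x - y) * n : ℤ) : ℤ_[p])‖ :=
    le_antisymm (h3 _ _ h2) (h3 _ _ fun k => (h2 k).symm)
  push_cast at h4
  rw [h4, norm_mul]

theorem norm_ex_sub_one (hp2 : p ≠ 2) (s : ℤ_[p]) : ‖ex p s - 1‖ = ‖(p : ℤ_[p])‖ * ‖s‖ := by
  have h1 : Continuous fun s : ℤ_[p] => ‖ex p s - 1‖ := (ex_cont.sub continuous_const).norm
  have h2 : Continuous fun s : ℤ_[p] => ‖(p : ℤ_[p])‖ * ‖s‖ := continuous_const.mul continuous_norm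
  have h3 := PadicInt.denseRange_natCast.equalizer h1 h2 (by
    funext k
    have h4 := norm_pow_sub_pow (p := p) hp2 (x := 1 + p) (y := 1) (by simp)
      (by
        intro h
        have h5 : (p : ℤ) ∣ 1 := by simpa using dvd_sub h (dvd_refl (p : ℤ))
        have h6 : p ∣ 1 := by exact_mod_cast h5
        exact hp.out.one_lt.ne' (Nat.dvd_one.1 h6)) k
    simp only [Function.comp]
    rw [ex_nat]
    push_cast at h4
    simpa using h4)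
  exact congrFun h3 s

theorem norm_ex (hp2 : p ≠ 2) (s : ℤ_[p]) : ‖ex p s‖ = 1 := by
  have h1 : ‖ex p s - 1‖ < 1 := by
    rw [norm_ex_sub_one hp2]
    exact lt_of_le_of_lt (mul_le_of_le_one_right (norm_nonneg _) (PadicInt.norm_le_one _)) norm_p_lt
  have h2 : ex p s = (ex p s - 1) + 1 := by ring
  rw [h2]
  have h3 := PadicInt.norm_add_eq_max_of_ne (q := ex p s - 1) (r := 1) (by rw [norm_one]; exact h1.ne)
  rw [h3, norm_one, max_eq_right h1.le]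

theorem norm_ex_sub (hp2 : p ≠ 2) (s t : ℤ_[p]) : ‖ex p s - ex p t‖ = ‖(p : ℤ_[p])‖ * ‖s - t‖ := by
  have h1 : ex p s - ex p t = ex p t * (ex p (s - t) - 1) := by
    rw [mul_sub, ← ex_add, mul_one]
    congr 2
    ring
  rw [h1, norm_mul, norm_ex hp2, one_mul, norm_ex_sub_one hp2]

theorem ex_surj (hp2 : p ≠ 2) {z : ℤ_[p]} (hz : (p : ℤ_[p]) ∣ z - 1) : ∃ s, ex p s = z :=
  scale_surj p_ne (norm_ex_sub hp2) (x0 := 0) (b := 1) (by rw [ex_zero, sub_self, norm_zero]; exact norm_nonneg _)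
    ((dvd_iff p_ne).1 hz)

theorem ex_inj (hp2 : p ≠ 2) {s t : ℤ_[p]} (h : ex p s = ex p t) : s = t := by
  have h1 := norm_ex_sub hp2 s t
  rw [h, sub_self, norm_zero] at h1
  have h2 : ‖s - t‖ = 0 := (mul_eq_zero.1 h1.symm).resolve_left norm_p_pos.ne'
  exact sub_eq_zero.1 (norm_eq_zero.1 h2)

open scoped Classical in
/-- The logarithm of `1 + p ℤ_[p]` to the base `1 + p` (0 elsewhere). -/
noncomputable def lg1 (z : ℤ_[p]) : ℤ_[p] := if h : ∃ s, ex p s = z then h.choose else 0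

theorem ex_lg1 (hp2 : p ≠ 2) {z : ℤ_[p]} (hz : (p : ℤ_[p]) ∣ z - 1) : ex p (lg1 z) = z := by
  have h := ex_surj hp2 hz
  rw [lg1, dif_pos h]
  exact h.choose_spec

theorem lg1_ex (hp2 : p ≠ 2) (s : ℤ_[p]) : lg1 (ex p s) = s := by
  have h : ∃ t, ex p t = ex p s := ⟨s, rfl⟩
  rw [lg1, dif_pos h]
  exact ex_inj hp2 h.choose_spec

theorem p_dvd_ex (hp2 : p ≠ 2) (s : ℤ_[p]) : (p : ℤ_[p]) ∣ ex p s - 1 := by
  rw [dvd_iff p_ne, norm_ex_sub_one hp2]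
  exact mul_le_of_le_one_right (norm_nonneg _) (PadicInt.norm_le_one _)

theorem dvd_mul_sub_one {z w : ℤ_[p]} (hz : (p : ℤ_[p]) ∣ z - 1) (hw : (p : ℤ_[p]) ∣ w - 1) :
    (p : ℤ_[p]) ∣ z * w - 1 := by
  have h : z * w - 1 = (z - 1) * w + (w - 1) := by ring
  rw [h]
  exact dvd_add (hz.mul_right _) hw

theorem lg1_mul (hp2 : p ≠ 2) {z w : ℤ_[p]} (hz : (p : ℤ_[p]) ∣ z - 1) (hw : (p : ℤ_[p]) ∣ w - 1) :
    lg1 (z * w) = lg1 z + lg1 w := by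
  apply ex_inj hp2
  rw [ex_add, ex_lg1 hp2 hz, ex_lg1 hp2 hw, ex_lg1 hp2 (dvd_mul_sub_one hz hw)]

theorem lg1_one (hp2 : p ≠ 2) : lg1 (1 : ℤ_[p]) = 0 := by
  have h := lg1_ex hp2 (0 : ℤ_[p])
  rwa [ex_zero] at h

theorem lg1_pow (hp2 : p ≠ 2) {z : ℤ_[p]} (hz : (p : ℤ_[p]) ∣ z - 1) (n : ℕ) : lg1 (z ^ n) = n * lg1 z := by
  induction n with
  | zero => simp [lg1_one hp2]
  | succ n ih =>
    have h : (p : ℤ_[p]) ∣ z ^ n - 1 := by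
      have := sub_dvd_pow_sub_pow z 1 n
      rw [one_pow] at this
      exact hz.trans this
    rw [pow_succ, lg1_mul hp2 h hz, ih]
    push_cast
    ring

theorem norm_lg1_sub (hp2 : p ≠ 2) {z w : ℤ_[p]} (hz : (p : ℤ_[p]) ∣ z - 1) (hw : (p : ℤ_[p]) ∣ w - 1) :
    ‖(p : ℤ_[p])‖ * ‖lg1 z - lg1 w‖ = ‖z - w‖ := by
  rw [← norm_ex_sub hp2, ex_lg1 hp2 hz, ex_lg1 hp2 hw]

theorem norm_lg1 (hp2 : p ≠ 2) {z : ℤ_[p]} (hz : (p : ℤ_[p]) ∣ z - 1) :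
    ‖(p : ℤ_[p])‖ * ‖lg1 z‖ = ‖z - 1‖ := by
  have h := norm_lg1_sub hp2 hz (w := 1) (by simp)
  rwa [lg1_one hp2, sub_zero] at h

/-- `p ^ a ∣ lg z - lg w ↔ p ^ (a + 1) ∣ z - w`. -/
theorem lg1_dvd (hp2 : p ≠ 2) {z w : ℤ_[p]} (hz : (p : ℤ_[p]) ∣ z - 1) (hw : (p : ℤ_[p]) ∣ w - 1) (a : ℕ) :
    (p : ℤ_[p]) ^ a ∣ lg1 z - lg1 w ↔ (p : ℤ_[p]) ^ (a + 1) ∣ z - w := by
  rw [dvd_iff (pow_ne_zero _ p_ne), dvd_iff (pow_ne_zero _ p_ne), ← norm_lg1_sub hp2 hz hw, pow_succ',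
    norm_mul]
  exact ⟨fun h => mul_le_mul_of_nonneg_left h (norm_nonneg _), fun h => le_of_mul_le_mul_left h norm_p_pos⟩

/-- The linear part: `lg (1 + p^a y) = p^(a-1) c y` modulo `p^(2a-1)` (written with `a + 1` for `a`). -/
theorem lg1_linear (hp2 : p ≠ 2) (a : ℕ) : ∃ c : ℤ_[p], IsUnit c ∧ ∀ y : ℤ_[p],
    (p : ℤ_[p]) ^ (2 * a + 1) ∣ lg1 (1 + (p : ℤ_[p]) ^ (a + 1) * y) - (p : ℤ_[p]) ^ a * (c * y) := by
  have hd : ∀ y : ℤ_[p], (p : ℤ_[p]) ∣ (1 + (p : ℤ_[p]) ^ (a + 1) * y) - 1 := fun y =>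
    ⟨(p : ℤ_[p]) ^ a * y, by rw [pow_succ]; ring⟩
  have h0 : ∀ y : ℤ_[p], ∃ t, lg1 (1 + (p : ℤ_[p]) ^ (a + 1) * y) = (p : ℤ_[p]) ^ a * t := by
    intro y
    have h := (lg1_dvd hp2 (hd y) (w := 1) (by simp) a).2 ⟨y, by ring⟩
    rwa [lg1_one hp2, sub_zero] at h
  choose ψ hψ using h0
  have hpa : (p : ℤ_[p]) ^ a ≠ 0 := pow_ne_zero _ p_ne
  -- ψ is additive modulo p ^ (a + 1)
  have hadd : ∀ y z : ℤ_[p], (p : ℤ_[p]) ^ (a + 1) ∣ ψ (y + z) - (ψ y + ψ z) := by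
    intro y z
    have h1 := (lg1_dvd hp2 (hd (y + z)) (dvd_mul_sub_one (hd y) (hd z)) (2 * a + 1)).2
      ⟨-(y * z), by ring⟩
    rw [lg1_mul hp2 (hd y) (hd z), hψ, hψ, hψ] at h1
    have h2 : (p : ℤ_[p]) ^ a * (p : ℤ_[p]) ^ (a + 1) ∣ (p : ℤ_[p]) ^ a * (ψ (y + z) - (ψ y + ψ z)) := by
      rw [← pow_add]
      convert h1 using 1
      · congr 1
        ring
      · ring
    exact (mul_dvd_mul_iff_left hpa).1 h2
  have hcong : ∀ y z : ℤ_[p], (p : ℤ_[p]) ^ (a + 1) ∣ y - z → (p : ℤ_[p]) ^ (a + 1) ∣ ψ y - ψ z := by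
    intro y z h
    obtain ⟨t, ht⟩ := h
    have h1 := (lg1_dvd hp2 (hd y) (hd z) (2 * a + 1)).2
      ⟨t, by
        have : (1 + (p : ℤ_[p]) ^ (a + 1) * y) - (1 + (p : ℤ_[p]) ^ (a + 1) * z)
          = (p : ℤ_[p]) ^ (a + 1) * (y - z) := by ring
        rw [this, ht]
        ring⟩
    rw [hψ, hψ, ← mul_sub] at h1
    have h2 : (p : ℤ_[p]) ^ a * (p : ℤ_[p]) ^ (a + 1) ∣ (p : ℤ_[p]) ^ a * (ψ y - ψ z) := by
      rw [← pow_add]
      convert h1 using 2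
      ring
    exact (mul_dvd_mul_iff_left hpa).1 h2
  have hzero : ψ 0 = 0 := by
    have h1 := hψ 0
    rw [mul_zero, add_zero, lg1_one hp2] at h1
    exact (mul_eq_zero.1 h1.symm).resolve_left hpa
  have hnat : ∀ n : ℕ, (p : ℤ_[p]) ^ (a + 1) ∣ ψ (n : ℤ_[p]) - ψ 1 * n := by
    intro n
    induction n with
    | zero => simp [hzero]
    | succ n ih =>
      have h1 := dvd_add (hadd (n : ℤ_[p]) 1) ih
      rw [Nat.cast_succ]
      convert h1 using 1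
      ring
  have hall : ∀ y : ℤ_[p], (p : ℤ_[p]) ^ (a + 1) ∣ ψ y - ψ 1 * y := by
    intro y
    have h1 : (p : ℤ_[p]) ^ (a + 1) ∣ y - (y.appr (a + 1) : ℤ_[p]) := by
      have := PadicInt.appr_spec (a + 1) y
      exact Ideal.mem_span_singleton.1 this
    have h2 := hcong _ _ h1
    have h3 := hnat (y.appr (a + 1))
    have h4 : ψ y - ψ 1 * y = (ψ y - ψ (y.appr (a + 1) : ℤ_[p])) +
        (ψ (y.appr (a + 1) : ℤ_[p]) - ψ 1 * (y.appr (a + 1) : ℤ_[p])) -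
        ψ 1 * (y - (y.appr (a + 1) : ℤ_[p])) := by ring
    rw [h4]
    exact dvd_sub (dvd_add h2 h3) (h1.mul_left _)
  refine ⟨ψ 1, ?_, fun y => ?_⟩
  · rw [PadicInt.isUnit_iff]
    have h1 := norm_lg1 hp2 (hd 1)
    rw [hψ, norm_mul, mul_one, add_sub_cancel_left, pow_succ', norm_mul] at h1
    have h2 : 0 < ‖(p : ℤ_[p]) ^ a‖ := norm_pos_iff.2 hpa
    have h3 := mul_left_cancel₀ norm_p_pos.ne' h1
    exact mul_left_cancel₀ h2.ne' (h3.trans (mul_one _).symm)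
  · rw [hψ, ← mul_sub]
    have h1 : (p : ℤ_[p]) ^ (2 * a + 1) = (p : ℤ_[p]) ^ a * (p : ℤ_[p]) ^ (a + 1) := by
      rw [← pow_add]
      congr 1
      ring
    rw [h1]
    exact mul_dvd_mul_left _ (hall y)

/-! ### The logarithm of the units -/

theorem pow_sub_one_dvd {z : ℤ_[p]} (hz : IsUnit z) : (p : ℤ_[p]) ∣ z ^ (p - 1) - 1 := by
  have h1 : PadicInt.toZMod (z ^ (p - 1) - 1) = 0 := by
    rw [map_sub, map_pow, map_one, ZMod.pow_card_sub_one_eq_one, sub_self]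
    exact (hz.map PadicInt.toZMod).ne_zero
  have h2 : z ^ (p - 1) - 1 ∈ RingHom.ker (PadicInt.toZMod (p := p)) := h1
  rw [PadicInt.ker_toZMod, PadicInt.maximalIdeal_eq_span_p] at h2
  exact Ideal.mem_span_singleton.1 h2

/-- The logarithm of a unit: `(1 + p) ^ (lgu z) = z ^ (p - 1)`. -/
noncomputable def lgu (z : ℤ_[p]) : ℤ_[p] := lg1 (z ^ (p - 1))

theorem ex_lgu (hp2 : p ≠ 2) {z : ℤ_[p]} (hz : IsUnit z) : ex p (lgu z) = z ^ (p - 1) :=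
  ex_lg1 hp2 (pow_sub_one_dvd hz)

theorem lgu_mul (hp2 : p ≠ 2) {z w : ℤ_[p]} (hz : IsUnit z) (hw : IsUnit w) : lgu (z * w) = lgu z + lgu w := by
  rw [lgu, mul_pow, lg1_mul hp2 (pow_sub_one_dvd hz) (pow_sub_one_dvd hw)]
  rfl

theorem isUnit_pred (p : ℕ) [hp : Fact p.Prime] : IsUnit ((p - 1 : ℕ) : ℤ_[p]) := by
  rw [PadicInt.isUnit_iff]
  have h1 : ((p - 1 : ℕ) : ℤ_[p]) = (p : ℤ_[p]) + (-1) := by
    rw [Nat.cast_sub hp.out.one_lt.le]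
    push_cast
    ring
  rw [h1]
  have h2 : ‖(-1 : ℤ_[p])‖ = 1 := by rw [norm_neg, norm_one]
  rw [PadicInt.norm_add_eq_max_of_ne (by rw [h2]; exact norm_p_lt.ne), h2, max_eq_right norm_p_lt.le]

/-- `p ^ a ∣ lg z - lg w ↔ p ^ (a + 1) ∣ z ^ (p - 1) - w ^ (p - 1)`. -/
theorem lgu_dvd (hp2 : p ≠ 2) {z w : ℤ_[p]} (hz : IsUnit z) (hw : IsUnit w) (a : ℕ) :
    (p : ℤ_[p]) ^ a ∣ lgu z - lgu w ↔ (p : ℤ_[p]) ^ (a + 1) ∣ z ^ (p - 1) - w ^ (p - 1) :=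
  lg1_dvd hp2 (pow_sub_one_dvd hz) (pow_sub_one_dvd hw) a

/-- If the residues modulo `p` are the same, then `p ^ a ∣ lg z - lg w ↔ p ^ (a + 1) ∣ z - w`. -/
theorem lgu_dvd_of_res (hp2 : p ≠ 2) {z w : ℤ_[p]} (hz : IsUnit z) (hw : IsUnit w)
    (hzw : (p : ℤ_[p]) ∣ z - w) (a : ℕ) :
    (p : ℤ_[p]) ^ a ∣ lgu z - lgu w ↔ (p : ℤ_[p]) ^ (a + 1) ∣ z - w := by
  obtain ⟨w', hw'⟩ := hw.exists_right_inv
  have hw'u : IsUnit w' := IsUnit.of_mul_eq_one w (by rw [mul_comm]; exact hw')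
  have h1 : (p : ℤ_[p]) ∣ z * w' - 1 := by
    have : z * w' - 1 = (z - w) * w' := by rw [sub_mul, hw']
    rw [this]
    exact hzw.mul_right _
  have h2 : lgu z - lgu w = ((p - 1 : ℕ) : ℤ_[p]) * lg1 (z * w') := by
    have h3 : z = w * (z * w') := by
      calc z = z * (w * w') := by rw [hw', mul_one]
        _ = _ := by ring
    have h4 : IsUnit (z * w') := hz.mul hw'u
    conv_lhs => rw [h3]
    rw [lgu_mul hp2 hw h4, add_sub_cancel_left, lgu, lg1_pow hp2 h1]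
  have h5 := lg1_dvd hp2 h1 (w := 1) (by simp) a
  rw [lg1_one hp2, sub_zero] at h5
  rw [h2, (isUnit_pred p).dvd_mul_left, h5]
  have h6 : z * w' - 1 = (z - w) * w' := by rw [sub_mul, hw']
  rw [h6, hw'u.dvd_mul_right]

/-- The linear part for the units: `lg (z + p^(a+1) y) - lg z = p^a c y / z` modulo `p^(2a+1)`, with a unit `c`
which depends on `a` only. -/
theorem lgu_linear (hp2 : p ≠ 2) (a : ℕ) : ∃ c : ℤ_[p], IsUnit c ∧ ∀ z z' y : ℤ_[p], z * z' = 1 →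
    (p : ℤ_[p]) ^ (2 * a + 1) ∣ lgu (z + (p : ℤ_[p]) ^ (a + 1) * y) - lgu z - (p : ℤ_[p]) ^ a * (c * z' * y) := by
  obtain ⟨c, hc, h⟩ := lg1_linear (p := p) hp2 a
  refine ⟨((p - 1 : ℕ) : ℤ_[p]) * c, (isUnit_pred p).mul hc, fun z z' y hz => ?_⟩
  have hzu : IsUnit z := IsUnit.of_mul_eq_one z' hz
  have h1 : z + (p : ℤ_[p]) ^ (a + 1) * y = z * (1 + (p : ℤ_[p]) ^ (a + 1) * (z' * y)) := by
    calc z + (p : ℤ_[p]) ^ (a + 1) * y = z + (p : ℤ_[p]) ^ (a + 1) * ((z * z') * y) := by rw [hz, one_mul]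
      _ = _ := by ring
  have hd : (p : ℤ_[p]) ∣ (1 + (p : ℤ_[p]) ^ (a + 1) * (z' * y)) - 1 :=
    ⟨(p : ℤ_[p]) ^ a * (z' * y), by rw [pow_succ]; ring⟩
  have hu : IsUnit (1 + (p : ℤ_[p]) ^ (a + 1) * (z' * y)) := by
    rw [PadicInt.isUnit_iff]
    have h2 : ‖(p : ℤ_[p]) ^ (a + 1) * (z' * y)‖ < 1 := by
      rw [norm_mul, pow_succ, norm_mul]
      have h3 : ‖(p : ℤ_[p]) ^ a‖ * ‖(p : ℤ_[p])‖ < 1 :=
        mul_lt_one_of_nonneg_of_lt_one_right (PadicInt.norm_le_one _) (norm_nonneg _) norm_p_lt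
      exact mul_lt_one_of_nonneg_of_lt_one_left (by positivity) h3 (PadicInt.norm_le_one _)
    rw [add_comm, PadicInt.norm_add_eq_max_of_ne (by rw [norm_one]; exact h2.ne), norm_one, max_eq_right h2.le]
  rw [h1, lgu_mul hp2 hzu hu, add_sub_cancel_left, lgu, lg1_pow hp2 hd]
  have h4 := (h (z' * y)).mul_left ((p - 1 : ℕ) : ℤ_[p])
  convert h4 using 1
  ring

end Pool.Agent.Helper25.ET
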