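import Mathlib
import Pool.Agent.Helper25.ET.Log

/-!
# ET, block A: the logarithm of natural numbers prime to `p`; pairs of primes with a known sum of logarithms
-/

set_option autoImplicit false

namespace Pool.Agent.Helper25.ET

variable {p : ℕ} [hp : Fact p.Prime]

theorem isUnit_nat {x : ℕ} (hx : ¬ p ∣ x) : IsUnit (x : ℤ_[p]) := by
  rw [PadicInt.isUnit_iff, PadicInt.norm_natCast_eq_one_iff]
  exact (Nat.Prime.coprime_iff_not_dvd hp.out).2 hx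

theorem pow_dvd_nat_iff {x y k : ℕ} : (p : ℤ_[p]) ^ k ∣ (x : ℤ_[p]) - (y : ℤ_[p]) ↔ x ≡ y [MOD p ^ k] := by
  rw [dvd_iff (pow_ne_zero _ p_ne), norm_pow, PadicInt.norm_p]
  have h1 : ((p : ℝ)⁻¹) ^ k = (p : ℝ) ^ (-(k : ℤ)) := by
    rw [zpow_neg, zpow_natCast, inv_pow]
  have h2 : (x : ℤ_[p]) - (y : ℤ_[p]) = (((x : ℤ) - (y : ℤ) : ℤ) : ℤ_[p]) := by push_cast; rfl
  rw [h1, h2, PadicInt.norm_int_le_pow_iff_dvd, ← Int.natCast_modEq_iff, Int.modEq_comm, Int.modEq_iff_dvd]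
  push_cast
  rfl

/-- The logarithm (to the base `1 + p`, of the `(p - 1)`-st power) of a natural number prime to `p`. -/
noncomputable def lgn (p : ℕ) [Fact p.Prime] (x : ℕ) : ℤ_[p] := lgu (x : ℤ_[p])

theorem lgn_mul (hp2 : p ≠ 2) {x y : ℕ} (hx : ¬ p ∣ x) (hy : ¬ p ∣ y) : lgn p (x * y) = lgn p x + lgn p y := by
  unfold lgn
  rw [Nat.cast_mul, lgu_mul hp2 (isUnit_nat hx) (isUnit_nat hy)]

theorem lgn_dvd (hp2 : p ≠ 2) {x y : ℕ} (hx : ¬ p ∣ x) (hy : ¬ p ∣ y) (hxy : x ≡ y [MOD p]) (a : ℕ) :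
    (p : ℤ_[p]) ^ a ∣ lgn p x - lgn p y ↔ x ≡ y [MOD p ^ (a + 1)] := by
  have h : (p : ℤ_[p]) ∣ (x : ℤ_[p]) - (y : ℤ_[p]) := by
    have := (pow_dvd_nat_iff (p := p) (x := x) (y := y) (k := 1)).2 (by rwa [pow_one])
    rwa [pow_one] at this
  rw [← pow_dvd_nat_iff]
  exact lgu_dvd_of_res hp2 (isUnit_nat hx) (isUnit_nat hy) h a

/-- Two numbers with the same residue modulo `p` whose logarithms agree with `c` modulo `p ^ a` are equal modulo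
`p ^ (a + 1)`. -/
theorem modEq_of_lgn (hp2 : p ≠ 2) {a : ℕ} {c : ℤ_[p]} {x y : ℕ} (hx : ¬ p ∣ x) (hy : ¬ p ∣ y)
    (hcx : (p : ℤ_[p]) ^ a ∣ lgn p x - c) (hcy : (p : ℤ_[p]) ^ a ∣ lgn p y - c) (hxy : x ≡ y [MOD p]) :
    x ≡ y [MOD p ^ (a + 1)] := by
  rw [← lgn_dvd hp2 hx hy hxy]
  have := dvd_sub hcx hcy
  rwa [sub_sub_sub_cancel_right] at this

/-- At most `p - 1` residues modulo `p ^ (a + 1)` have a given logarithm modulo `p ^ a`. -/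
theorem card_lgn (hp2 : p ≠ 2) {a : ℕ} {c : ℤ_[p]} (S : Finset ℕ)
    (hS : ∀ x ∈ S, ¬ p ∣ x ∧ x < p ^ (a + 1) ∧ (p : ℤ_[p]) ^ a ∣ lgn p x - c) : S.card ≤ p - 1 := by
  have h1 : S.card ≤ (Finset.Ico 1 p).card := by
    refine Finset.card_le_card_of_injOn (fun x => x % p) (fun x hx => ?_) (fun x hx y hy hxy => ?_)
    · have h2 := hS x hx
      rw [Finset.coe_Ico, Set.mem_Ico]
      refine ⟨Nat.one_le_iff_ne_zero.2 fun h => h2.1 (Nat.dvd_of_mod_eq_zero h), Nat.mod_lt _ hp.out.pos⟩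
    · obtain ⟨h2, h3, h4⟩ := hS x hx
      obtain ⟨h5, h6, h7⟩ := hS y hy
      exact Nat.ModEq.eq_of_lt_of_lt (modEq_of_lgn hp2 h2 h5 h4 h7 hxy) h3 h6
  rwa [Nat.card_Ico] at h1

/-- Pairs of primes with a given product. -/
theorem card_prime_pairs (M : ℕ) (S : Finset (ℕ × ℕ))
    (hS : ∀ q ∈ S, q.1.Prime ∧ q.2.Prime ∧ q.1 * q.2 = M) : S.card ≤ 2 := by
  rcases S.eq_empty_or_nonempty with h | ⟨⟨u, v⟩, huv⟩
  · simp [h]
  · obtain ⟨hu, hv, hM⟩ := hS _ huv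
    simp only at hu hv hM
    have h1 : S ⊆ {(u, v), (v, u)} := by
      rintro ⟨u', v'⟩ h
      obtain ⟨hu', hv', hM'⟩ := hS _ h
      simp only at hu' hv' hM'
      have h2 : u' ∣ u * v := by rw [hM, ← hM']; exact dvd_mul_right _ _
      rw [Finset.mem_insert, Finset.mem_singleton]
      rcases (Nat.Prime.dvd_mul hu').1 h2 with h3 | h3
      · left
        have h4 : u' = u := (Nat.prime_dvd_prime_iff_eq hu' hu).1 h3
        subst h4
        have h5 : v' = v := Nat.eq_of_mul_eq_mul_left hu'.pos (hM'.trans hM.symm)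
        rw [h5]
      · right
        have h4 : u' = v := (Nat.prime_dvd_prime_iff_eq hu' hv).1 h3
        subst h4
        have h5 : v' = u := Nat.eq_of_mul_eq_mul_left hu'.pos (by rw [hM', ← hM, mul_comm])
        rw [h5]
    exact (Finset.card_le_card h1).trans (Finset.card_le_two)

/-- Static families: at most `2 (p - 1)` pairs of primes have a given sum of logarithms modulo `p ^ a`, if the
products are below `p ^ (a + 1)`. -/
theorem card_pairs (hp2 : p ≠ 2) {a : ℕ} {c : ℤ_[p]} (S : Finset (ℕ × ℕ))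
    (hS : ∀ q ∈ S, q.1.Prime ∧ q.2.Prime ∧ q.1 ≠ p ∧ q.2 ≠ p ∧ q.1 * q.2 < p ^ (a + 1) ∧
      (p : ℤ_[p]) ^ a ∣ lgn p q.1 + lgn p q.2 - c) : S.card ≤ 2 * (p - 1) := by
  classical
  have hnd : ∀ x : ℕ, x.Prime → x ≠ p → ¬ p ∣ x := fun x hx hxp h =>
    hxp ((Nat.prime_dvd_prime_iff_eq hp.out hx).1 h).symm
  have h1 : (S.image fun q => q.1 * q.2).card ≤ p - 1 := by
    refine card_lgn hp2 (a := a) (c := c) _ fun x hx => ?_
    obtain ⟨q, hq, rfl⟩ := Finset.mem_image.1 hx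
    obtain ⟨h2, h3, h4, h5, h6, h7⟩ := hS q hq
    refine ⟨fun h => ?_, h6, ?_⟩
    · rcases (Nat.Prime.dvd_mul hp.out).1 h with h8 | h8
      · exact hnd _ h2 h4 h8
      · exact hnd _ h3 h5 h8
    · rwa [lgn_mul hp2 (hnd _ h2 h4) (hnd _ h3 h5)]
  calc S.card ≤ 2 * (S.image fun q => q.1 * q.2).card := by
        refine Finset.card_le_mul_card_image S 2 fun M _ => ?_
        refine card_prime_pairs M _ fun q hq => ?_
        obtain ⟨hq1, hq2⟩ := Finset.mem_filter.1 hq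
        obtain ⟨h2, h3, _⟩ := hS q hq1
        exact ⟨h2, h3, hq2⟩
    _ ≤ 2 * (p - 1) := Nat.mul_le_mul_left 2 h1

/-- The linear part of the logarithm of natural numbers. -/
theorem lgn_linear (hp2 : p ≠ 2) (a : ℕ) {N : ℕ} (hN : ¬ p ∣ N) : ∃ b : ℤ_[p], IsUnit b ∧ ∀ i : ℕ,
    (p : ℤ_[p]) ^ (2 * a + 1) ∣ lgn p (N + i * p ^ (a + 1)) - lgn p N - (p : ℤ_[p]) ^ a * (b * i) := by
  obtain ⟨c, hc, h⟩ := lgu_linear (p := p) hp2 a
  obtain ⟨z', hz'⟩ := (isUnit_nat hN).exists_right_inv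
  refine ⟨c * z', hc.mul (IsUnit.of_mul_eq_one (N : ℤ_[p]) (by rw [mul_comm]; exact hz')), fun i => ?_⟩
  have h1 := h (N : ℤ_[p]) z' i hz'
  unfold lgn
  convert h1 using 4
  push_cast
  ring

/-- Growing families. If `N ≡ M` modulo `p ^ (a + 1)` (`N ≤ M`), then `M = N + i p ^ (a + 1)` and the logarithm of
`M` is `lgn N + p ^ a b i` modulo `p ^ (2 a + 1)`. Here for a product of two numbers. -/
theorem lgn_pair_linear (hp2 : p ≠ 2) (a : ℕ) {N : ℕ} (hN : ¬ p ∣ N) : ∃ b : ℤ_[p], IsUnit b ∧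
    ∀ i x x' : ℕ, ¬ p ∣ x → ¬ p ∣ x' → x * x' = N + i * p ^ (a + 1) →
    (p : ℤ_[p]) ^ (2 * a + 1) ∣ lgn p x + lgn p x' - (lgn p N + (p : ℤ_[p]) ^ a * (b * i)) := by
  obtain ⟨b, hb, h⟩ := lgn_linear (p := p) hp2 a hN
  refine ⟨b, hb, fun i x x' hx hx' hxx => ?_⟩
  rw [← lgn_mul hp2 hx hx', hxx, ← sub_sub]
  exact h i

/-! ### `ZMod` versions -/

theorem toZModPow_eq_zero_iff (a : ℕ) (z : ℤ_[p]) : PadicInt.toZModPow a z = 0 ↔ (p : ℤ_[p]) ^ a ∣ z := by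
  rw [← RingHom.mem_ker, PadicInt.ker_toZModPow, Ideal.mem_span_singleton]

theorem toZModPow_eq_iff (a : ℕ) (z w : ℤ_[p]) :
    PadicInt.toZModPow a z = PadicInt.toZModPow a w ↔ (p : ℤ_[p]) ^ a ∣ z - w := by
  rw [← sub_eq_zero, ← map_sub, toZModPow_eq_zero_iff]

/-- The logarithm modulo `p ^ a`. -/
noncomputable def lgz (p : ℕ) [Fact p.Prime] (a x : ℕ) : ZMod (p ^ a) := PadicInt.toZModPow a (lgn p x)

theorem lgz_mul (hp2 : p ≠ 2) (a : ℕ) {x y : ℕ} (hx : ¬ p ∣ x) (hy : ¬ p ∣ y) :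
    lgz p a (x * y) = lgz p a x + lgz p a y := by
  unfold lgz
  rw [lgn_mul hp2 hx hy, map_add]

theorem lgz_cast {a b : ℕ} (hab : a ≤ b) (x : ℕ) : (ZMod.castHom (pow_dvd_pow p hab) (ZMod (p ^ a))) (lgz p b x) = lgz p a x := by
  unfold lgz
  rw [← RingHom.comp_apply, PadicInt.zmod_cast_comp_toZModPow a b hab]

end Pool.Agent.Helper25.ET
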